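import Pool.Agent.TH598.GV.Defs

/-!
# Definitions for the Laplace expansion
-/

set_option autoImplicit false

namespace Pool.Agent.TH598.GV

open Finset

/-- the curvature tensor of the unit sphere -/
noncomputable def UU {I : Type} [DecidableEq I] : I → I → I → I → ℂ := fun i j i' j' =>
  (if i = i' then 1 else 0) * (if j = j' then 1 else 0) -
    (if i = j' then 1 else 0) * (if j = i' then 1 else 0)

/-- its part on the bivectors `e₀ ∧ e_p` -/
noncomputable def U0 {k : ℕ} : Ix k → Ix k → Ix k → Ix k → ℂ := fun i j i' j' =>
  ∑ p, (if p = e0 then 0 else W p i j * W p i' j')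

/-- the indices other than `e₀` and `p` (for `p ≠ e₀`) -/
def cp {k : ℕ} (p : Ix k) (a : K k) : Ix k := Equiv.swap p e1 (em a)

end Pool.Agent.TH598.GV
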