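import Mathlib

/-!
# The Gauss–Bonnet form of tensors with nonnegative complex sectional curvature: definitions
-/

set_option autoImplicit false

namespace Pool.Agent.TH598.GV

open Finset MeasureTheory
open scoped ComplexConjugate

/-- sign of a permutation as a complex number -/
noncomputable def cs {P : Type} [Fintype P] [DecidableEq P] (σ : Equiv.Perm P) : ℂ :=
  ((Equiv.Perm.sign σ : ℤ) : ℂ)

/-- double alternating sum of a `4`-tensor with indices in `B × Bool` -/
noncomputable def GG {B : Type} [Fintype B] [DecidableEq B]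
    (H : B × Bool → B × Bool → B × Bool → B × Bool → ℂ) : ℂ :=
  ∑ σ : Equiv.Perm (B × Bool), ∑ τ : Equiv.Perm (B × Bool), cs σ * cs τ *
    ∏ b : B, H (σ (b, false)) (σ (b, true)) (τ (b, false)) (τ (b, true))

/-- polarised Pfaffian (not normalised) of a family of matrices -/
noncomputable def PP {B : Type} [Fintype B] [DecidableEq B]
    (h : B → B × Bool → B × Bool → ℂ) : ℂ :=
  ∑ σ : Equiv.Perm (B × Bool), cs σ * ∏ b : B, h b (σ (b, false)) (σ (b, true))

/-- indices in dimension `2 (k + 1)` -/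
abbrev Ix (k : ℕ) : Type := Fin (k + 1) × Bool

/-- the indices of the last `2 k` coordinates -/
abbrev K (k : ℕ) : Type := Fin k × Bool

/-- the index of the vector outside the hyperplane -/
def e0 {k : ℕ} : Ix k := (0, false)

/-- the index of the distinguished vector of the hyperplane -/
def e1 {k : ℕ} : Ix k := (0, true)

/-- the last `2 k` indices -/
def em {k : ℕ} (j : K k) : Ix k := (j.1.succ, j.2)

/-- numbering of `K k` -/
def ps {k : ℕ} (j : K k) : ℕ := 2 * j.1 + (if j.2 then 1 else 0)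

/-- pairs of indices of `K k` in increasing order -/
abbrev Pr (k : ℕ) : Type := {p : K k × K k // ps p.1 < ps p.2}

/-- the coordinates of the second exterior power of the hyperplane -/
abbrev Sx (k : ℕ) : Type := K k ⊕ Pr k

/-- the pair of indices of a coordinate -/
def pr {k : ℕ} : Sx k → Ix k × Ix k
  | Sum.inl j => (e1, em j)
  | Sum.inr p => (em p.1.1, em p.1.2)

/-- elementary alternating matrices of the hyperplane -/
noncomputable def E {k : ℕ} (s : Sx k) : Ix k → Ix k → ℂ := fun i j =>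
  (if (i, j) = pr s then 1 else 0) - (if (j, i) = pr s then 1 else 0)

/-- the form `e₀ ∧ e_p` -/
noncomputable def W {k : ℕ} (p : Ix k) : Ix k → Ix k → ℂ := fun i j =>
  (if i = e0 then 1 else 0) * (if j = p then 1 else 0) -
    (if i = p then 1 else 0) * (if j = e0 then 1 else 0)

/-- the alternating matrix of the hyperplane with coordinates `z` -/
noncomputable def bt {k : ℕ} (z : Sx k → ℂ) : Ix k → Ix k → ℂ := fun i j => ∑ s, z s * E s i j

/-- the vector `e₁ + u` -/
noncomputable def wv {k : ℕ} (u : K k → ℂ) : Ix k → ℂ := fun i =>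
  (if i = e1 then 1 else 0) + ∑ j, u j * (if i = em j then 1 else 0)

/-- the block of `bt` on the last `2 k` indices -/
noncomputable def Dm (k : ℕ) : (Pr k → ℂ) →ₗ[ℂ] Matrix (K k) (K k) ℂ where
  toFun x := fun a b => ∑ p : Pr k, x p * E (Sum.inr p) (em a) (em b)
  map_add' x y := by
    ext a b
    simp only [Pi.add_apply, add_mul, Finset.sum_add_distrib, Matrix.add_apply]
  map_smul' c x := by
    ext a b
    simp only [Pi.smul_apply, smul_eq_mul, Matrix.smul_apply, RingHom.id_apply, Finset.mul_sum]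
    exact Finset.sum_congr rfl fun p _ => by ring

/-- coordinates of the matrices with kernel vector `e₁ + u` -/
noncomputable def zu {K P : Type} [Fintype K] (D : (P → ℂ) →ₗ[ℂ] Matrix K K ℂ) (u : K → ℂ)
    (x : P → ℂ) : K ⊕ P → ℂ :=
  Sum.elim (fun j => -(∑ a, u a * D x a j)) x

/-- the components `ω_p (β) = Pf (e₀ ∧ e_p, β, …, β)` -/
noncomputable def om {k : ℕ} (β : Ix k → Ix k → ℂ) (p : Ix k) : ℂ :=
  PP (B := Fin (k + 1)) (Fin.cons (W p) (fun _ => β))

/-- the standard Gaussian weight -/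
noncomputable def gw {S : Type} [Fintype S] (ξ : S → ℂ) : ℝ := Real.exp (-∑ s, ‖ξ s‖ ^ 2)

/-- the column `a` of `L` as an alternating matrix, plus the part `e₀ ∧ g_a` -/
noncomputable def hh {k : ℕ} (L : Matrix (Sx k) (Sx k) ℂ) (g : Sx k → Ix k → ℂ) (a : Sx k) :
    Ix k → Ix k → ℂ := fun i j => bt (fun s => L s a) i j + ∑ p, g a p * W p i j

/-- the tensor with Gaussian part `L, g` and Schur complement `Γ` -/
noncomputable def HH {k : ℕ} (L : Matrix (Sx k) (Sx k) ℂ) (g : Sx k → Ix k → ℂ)
    (Γ : Matrix (Ix k) (Ix k) ℂ) : Ix k → Ix k → Ix k → Ix k → ℂ := fun i j i' j' =>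
  ∑ a, hh L g a i j * conj (hh L g a i' j') + ∑ p, ∑ q, Γ p q * W p i j * W q i' j'

/-- the integrand -/
noncomputable def FF {k : ℕ} (L : Matrix (Sx k) (Sx k) ℂ) (g : Sx k → Ix k → ℂ)
    (Γ : Matrix (Ix k) (Ix k) ℂ) (ξ : Sx k → ℂ) : ℝ :=
  ‖∑ p, (∑ a, ξ a * g a p) * om (bt (L.mulVec ξ)) p‖ ^ 2 +
    (∑ p, ∑ q, Γ p q * om (bt (L.mulVec ξ)) p * conj (om (bt (L.mulVec ξ)) q)).re

/-- the value of the Hermitian form of `H` on `z ∧ w` -/
noncomputable def qf {I : Type} [Fintype I] (H : I → I → I → I → ℂ) (z w : I → ℂ) : ℂ :=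
  ∑ i, ∑ j, ∑ i', ∑ j', H i j i' j' * (z i * w j * conj (z i') * conj (w j'))

/-- Hermitian symmetry and alternation -/
structure HS {I : Type} (H : I → I → I → I → ℂ) : Prop where
  herm : ∀ i j k l, H k l i j = conj (H i j k l)
  alt : ∀ i j k l, H j i k l = - H i j k l

/-- the block of `H` on the second exterior power of the hyperplane -/
noncomputable def BB {k : ℕ} (H : Ix k → Ix k → Ix k → Ix k → ℂ) : Matrix (Sx k) (Sx k) ℂ :=
  fun s t => H (pr s).1 (pr s).2 (pr t).1 (pr t).2

end Pool.Agent.TH598.GV
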