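import Pool.Agent.TH598.GV.Defs
import Pool.Agent.TH928.J3413
import Pool.Agent.TH89.J3416
import Pool.Agent.TH365.J3418
import Pool.Agent.TH822.J3419
import Pool.Agent.TH73.J3420
import Pool.Agent.TH543.GV.J3421
import Pool.Agent.TH541.J3422
import Pool.Agent.TH828.J3423
import Pool.Agent.TH991.J3417

/-!
# The coordinate theorem

The double alternating sum of a Hermitian tensor which is positive definite on the bivectors of a
hyperplane and nonnegative on all decomposable bivectors is nonnegative.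
-/

set_option autoImplicit false

namespace Pool.Agent.TH598.GV

open Finset MeasureTheory
open scoped ComplexConjugate ComplexOrder

/-- disintegration over the kernel vector -/
theorem disint {K P : Type} [Fintype K] [DecidableEq K] [Fintype P] [DecidableEq P]
    (L : Matrix (K ⊕ P) (K ⊕ P) ℂ) (hL : IsUnit L.det)
    (D : (P → ℂ) →ₗ[ℂ] Matrix K K ℂ) (hD : ∃ x, (D x).det ≠ 0)
    (F : (K ⊕ P → ℂ) → ℝ) (hFc : Continuous F) (hF : Integrable fun ξ => F ξ * gw ξ)
    (fib : ∀ u : K → ℂ, ∃ (q : MvPolynomial P ℂ) (v : P → ℂ) (Γ : ℝ),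
      -(∑ s, ‖(L⁻¹.mulVec (zu D u v)) s‖ ^ 2) ≤ Γ ∧
      ∀ x, F (L⁻¹.mulVec (zu D u x)) = ‖MvPolynomial.eval x q‖ ^ 2 *
        (‖∑ s, (L⁻¹.mulVec (zu D u x)) s * conj ((L⁻¹.mulVec (zu D u v)) s)‖ ^ 2 + Γ)) :
    0 ≤ ∫ ξ : K ⊕ P → ℂ, F ξ * gw ξ :=
  Pool.Agent.TH89.GVE.disint_fib
    (fun N hN Q v G h => Pool.Agent.TH928.GV.fibre N hN Q v G h) L hL D hD F hFc hF fib

/-- The coordinate theorem, positive definite block. -/
theorem coord {k : ℕ} (H : Ix k → Ix k → Ix k → Ix k → ℂ) (hH : HS H)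
    (hB : (BB H).PosDef) (hK : ∀ z w : Ix k → ℂ, 0 ≤ (qf H z w).re) : 0 ≤ (GG H).re := by
  obtain ⟨L, g, Γ, hL, rfl⟩ := Pool.Agent.TH73.J3420.dec H hH hB
  obtain ⟨hint, hG⟩ := Pool.Agent.TH991.J3417.alg L g Γ
  have key : 0 ≤ ∫ ξ, FF L g Γ ξ * gw ξ := by
    refine disint L hL (Dm k) Pool.Agent.TH543.GV.Dm_det (FF L g Γ)
      (Pool.Agent.TH543.GV.FF_cont L g Γ) hint fun u => ?_
    obtain ⟨q, hq⟩ := Pool.Agent.TH543.GV.om_poly u
    obtain ⟨v, b, hb, hv, hr⟩ :=
      Pool.Agent.TH822.J3419.riesz L hL (fun a => ∑ p, g a p * wv u p) u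
    refine ⟨q, v, (∑ p, ∑ q, Γ p q * wv u p * conj (wv u q)).re, ?_, fun x => ?_⟩
    · have h1 := hK (fun i => (if i = e0 then 1 else 0) - b i) (wv u)
      rw [Pool.Agent.TH543.GV.qf_HH L g Γ b hb u] at h1
      simp only [hr, Complex.norm_conj] at h1
      rw [Complex.add_re, Complex.ofReal_re] at h1
      linarith
    · have h2 : L.mulVec (L⁻¹.mulVec (zu (Dm k) u x)) = zu (Dm k) u x := by
        rw [Matrix.mulVec_mulVec, Matrix.mul_nonsing_inv _ hL, Matrix.one_mulVec]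
      obtain ⟨q0, hq0⟩ : ∃ q0, q0 = om (bt (zu (Dm k) u x)) e1 := ⟨_, rfl⟩
      have h3 : ∀ p, om (bt (zu (Dm k) u x)) p = wv u p * q0 := by
        rw [hq0]
        exact fun p => Pool.Agent.TH365.J3418.kernel _
          (fun i j => Pool.Agent.TH543.GV.bt_alt _ i j)
          (fun j => Pool.Agent.TH543.GV.bt_e0 _ j) u
          (fun j => Pool.Agent.TH543.GV.bt_kernel u x j) p
      unfold FF
      rw [h2]
      simp only [h3]
      have h4 : ∑ p, (∑ a, (L⁻¹.mulVec (zu (Dm k) u x)) a * g a p) * (wv u p * q0) =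
          (∑ a, (L⁻¹.mulVec (zu (Dm k) u x)) a * ∑ p, g a p * wv u p) * q0 := by
        simp only [Finset.sum_mul, Finset.mul_sum]
        rw [Finset.sum_comm]
        refine Finset.sum_congr rfl fun a _ => Finset.sum_congr rfl fun p _ => by ring
      have h5 : ∑ p, ∑ q, Γ p q * (wv u p * q0) * conj (wv u q * q0) =
          ((‖q0‖ ^ 2 : ℝ) : ℂ) * ∑ p, ∑ q, Γ p q * wv u p * conj (wv u q) := by
        simp only [Finset.mul_sum]
        refine Finset.sum_congr rfl fun a _ => Finset.sum_congr rfl fun p _ => ?_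
        rw [map_mul]
        have := Complex.mul_conj' q0
        push_cast
        linear_combination (Γ a p * wv u a * conj (wv u p)) * this
      rw [h4, h5, hv, norm_mul, mul_pow, Complex.re_ofReal_mul, ← hq, hq0]
      ring
  have hc : 0 < (k.factorial : ℝ) * Real.pi ^ Fintype.card (Sx k) := by positivity
  have h6 : 0 ≤ (k.factorial : ℝ) * Real.pi ^ Fintype.card (Sx k) * (GG (HH L g Γ)).re := by
    rw [hG]
    positivity
  exact nonneg_of_mul_nonneg_right h6 hc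

/-- every index set, semidefinite block -/
theorem gen {B : Type} [Fintype B] [DecidableEq B]
    (H : B × Bool → B × Bool → B × Bool → B × Bool → ℂ) (hH : HS H) (i0 : B × Bool)
    (hB : ∀ p : B × Bool → B × Bool → ℂ, (∀ j, p i0 j = 0) → (∀ j, p j i0 = 0) →
      0 ≤ (∑ i, ∑ j, ∑ i', ∑ j', H i j i' j' * (p i j * conj (p i' j'))).re)
    (hK : ∀ z w : B × Bool → ℂ, 0 ≤ (qf H z w).re) : 0 ≤ (GG H).re :=
  Pool.Agent.TH541.J3422.gen_of (fun H => coord H) H hH i0 hB hK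

/-- **The quantitative coordinate theorem** for real tensors. -/
theorem quant {m : ℕ}
    (R : Fin m × Bool → Fin m × Bool → Fin m × Bool → Fin m × Bool → ℝ)
    (alt : ∀ i j k l, R j i k l = - R i j k l) (pair : ∀ i j k l, R k l i j = R i j k l)
    (i0 : Fin m × Bool)
    (hB : ∀ p : Fin m × Bool → Fin m × Bool → ℝ, (∀ j, p i0 j = 0) → (∀ j, p j i0 = 0) →
      0 ≤ ∑ i, ∑ j, ∑ i', ∑ j', R i j i' j' * (p i j * p i' j'))
    (hK : ∀ x y u v : Fin m × Bool → ℝ, 0 ≤ Pool.Agent.TH828.J3423.rq R x u x u +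
      Pool.Agent.TH828.J3423.rq R y v y v + Pool.Agent.TH828.J3423.rq R x v x v +
      Pool.Agent.TH828.J3423.rq R y u y u - 2 * Pool.Agent.TH828.J3423.rq R x u y v +
      2 * Pool.Agent.TH828.J3423.rq R x v y u) (κ : ℝ) (hκ : 0 ≤ κ) :
    2 ^ m * ((2 * m).factorial : ℝ) * κ ^ m ≤
      ∑ σ : Equiv.Perm (Fin m × Bool), ∑ τ : Equiv.Perm (Fin m × Bool),
        ((Equiv.Perm.sign σ : ℤ) : ℝ) * ((Equiv.Perm.sign τ : ℤ) : ℝ) *
          ∏ b : Fin m, (R (σ (b, false)) (σ (b, true)) (τ (b, false)) (τ (b, true)) +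
            κ * Pool.Agent.W666.GB.unitCurv (σ (b, false)) (σ (b, true)) (τ (b, false))
              (τ (b, true))) :=
  Pool.Agent.TH828.J3423.quant_of (fun _ _ _ H hH i0 hB hK => gen H hH i0 hB hK)
    R alt pair i0 hB hK κ hκ

end Pool.Agent.TH598.GV
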