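import Pool.Agent.TH598.GV.Geo2
import Pool.Agent.TH598.GV.Coord
import Pool.Agent.TH263.J4005
import Pool.Agent.TH367.J4006
import Pool.Agent.TH615.J4025

/-!
# Strong pointwise form, strict sign and integrated forms
-/

set_option autoImplicit false

namespace Pool.Agent.TH598.GV

open Finset MeasureTheory Module
open Pool.Agent.W666.GB
open scoped ComplexConjugate ComplexOrder

theorem strong_holds : Strong := fun H hH i0 hB δ hδ hK =>
  Pool.Agent.TH367.J4006.strong (fun H hH t => Pool.Agent.TH263.J4005.laplace H hH t)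
    H hH i0 hB δ hδ hK

section

variable {V : Type} [NormedAddCommGroup V] [InnerProductSpace ℝ V] {m : ℕ}

/-- The tensor of constant curvature one. -/
noncomputable def unitR (x y z w : V) : ℝ :=
  inner ℝ x z * inner ℝ y w - inner ℝ x w * inner ℝ y z

/-- `R^ℂ (z ∧ w, conj (z ∧ w))` for `z = x + i y`, `w = u + i v`. -/
def cxs (R : V → V → V → V → ℝ) (x y u v : V) : ℝ :=
  R x u x u + R y v y v + R x v x v + R y u y u - 2 * R x u y v + 2 * R x v y u

/-- All complex sectional curvatures of `R` are negative: `R^ℂ (z ∧ w, conj (z ∧ w)) < 0` whenever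
`z ∧ w ≠ 0` (that is, `|z ∧ w| ^ 2 = cxs unitR x y u v > 0`). -/
def CxNeg (R : V → V → V → V → ℝ) : Prop :=
  ∀ x y u v : V, 0 < cxs unitR x y u v → cxs R x y u v < 0

theorem unit_curv : AlgCurv (unitR : V → V → V → V → ℝ) where
  add x x' y z w := by
    simp only [unitR, inner_add_left]; ring
  smul t x y z w := by
    simp only [unitR, inner_smul_left, conj_trivial]; ring
  anti x y z w := by
    simp only [unitR]; ring
  pair x y z w := by
    simp only [unitR, real_inner_comm z x, real_inner_comm w y,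
      real_inner_comm z y, real_inner_comm w x]; ring
  bianchi x y z w := by
    simp only [unitR]
    rw [real_inner_comm y x, real_inner_comm z x, real_inner_comm z y]
    ring

/-- the Hermitian form of the components of `-R` -/
theorem qf_comp {R : V → V → V → V → ℝ} (hR : AlgCurv R) {I : Type} [Fintype I]
    (f : I → V) (z w : I → ℂ) :
    (qf (fun a b c d => (((-R (f a) (f b) (f c) (f d) : ℝ)) : ℂ)) z w).re =
      -cxs R (vc f fun a => (z a).re) (vc f fun a => (z a).im) (vc f fun a => (w a).re)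
        (vc f fun a => (w a).im) := by
  rw [Pool.Agent.TH828.J3423.re_qf (fun a b c d => -R (f a) (f b) (f c) (f d))
    (fun i j k l => by rw [hR.pair])]
  have h : ∀ a b c d : I → ℝ, Pool.Agent.TH828.J3423.rq
      (fun a b c d => -R (f a) (f b) (f c) (f d)) a b c d =
        -R (vc f a) (vc f b) (vc f c) (vc f d) := fun a b c d => rq_eq hR f a b c d
  simp only [h, cxs]
  ring

theorem UU_comp (e : OrthonormalBasis (Fin m × Bool) ℝ V) :
    (UU : Fin m × Bool → Fin m × Bool → Fin m × Bool → Fin m × Bool → ℂ) =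
      fun a b c d => (((-(-unitR (e a) (e b) (e c) (e d)) : ℝ)) : ℂ) := by
  funext a b c d
  have hin : ∀ i j, inner ℝ (e i) (e j) = if i = j then (1 : ℝ) else 0 := fun i j => by
    rw [e.inner_eq_ite]
  have e2 : ∀ (P : Prop) [Decidable P], (((if P then 1 else 0 : ℝ)) : ℂ) =
      if P then 1 else 0 := by
    intro P _
    split_ifs <;> simp
  simp only [UU, unitR, hin, neg_neg]
  rw [Complex.ofReal_sub, Complex.ofReal_mul, Complex.ofReal_mul, e2, e2, e2, e2]

theorem neg_unit_curv : AlgCurv (fun x y z w : V => -unitR x y z w) where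
  add x x' y z w := by rw [unit_curv.add]; ring
  smul t x y z w := by rw [unit_curv.smul]; ring
  anti x y z w := by rw [unit_curv.anti x y z w]
  pair x y z w := by rw [unit_curv.pair x y z w]
  bianchi x y z w := by
    have := unit_curv.bianchi x y z w
    linarith

theorem vc_repr (e : OrthonormalBasis (Fin m × Bool) ℝ V) (x : V) :
    vc e (fun a => e.repr x a) = x := by
  unfold vc
  exact e.sum_repr x

/-- negative complex sectional curvature is uniformly negative -/
theorem exists_shift (e : OrthonormalBasis (Fin m × Bool) ℝ V) {R : V → V → V → V → ℝ}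
    (hR : AlgCurv R) (h : CxNeg R) : ∃ κ : ℝ, 0 < κ ∧ CxNonpos (shiftT R κ) := by
  have hU : ∀ z w : Fin m × Bool → ℂ, (qf UU z w).re =
      cxs unitR (vc e fun a => (z a).re) (vc e fun a => (z a).im) (vc e fun a => (w a).re)
        (vc e fun a => (w a).im) := by
    intro z w
    rw [UU_comp e, qf_comp neg_unit_curv e z w]
    simp only [cxs]
    ring
  have hHS : HS (fun a b c d => (((-R (e a) (e b) (e c) (e d) : ℝ)) : ℂ)) := by
    constructor
    · intro i j k l
      rw [Complex.conj_ofReal, hR.pair]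
    · intro i j k l
      rw [hR.anti]; push_cast; ring
  obtain ⟨κ, hκ, hb⟩ := Pool.Agent.TH615.J4025.cpt
    (fun a b c d => (((-R (e a) (e b) (e c) (e d) : ℝ)) : ℂ)) hHS (by
      intro z w hz
      rw [hU] at hz
      rw [qf_comp hR e z w]
      linarith [h _ _ _ _ hz])
  refine ⟨κ, hκ, fun x y u v => ?_⟩
  have h1 := hb (fun a => ⟨e.repr x a, e.repr y a⟩) (fun a => ⟨e.repr u a, e.repr v a⟩)
  rw [hU, qf_comp hR e] at h1
  simp only [vc_repr] at h1
  simp only [cxs, unitR] at h1
  simp only [shiftT]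
  linarith

/-- **Pointwise inequality.** -/
theorem point_strong (e : OrthonormalBasis (Fin m × Bool) ℝ V) {R : V → V → V → V → ℝ}
    (hR : AlgCurv R) {κ : ℝ} (hκ : 0 ≤ κ) (hC : CxNonpos (shiftT R κ)) (S : Submodule ℝ V)
    (hS : finrank ℝ S + 1 = 2 * m) (hO : OpNonposOn R S) :
    roundGB m κ ≤ (-1) ^ m * gbc e R :=
  point2 strong_holds e hR hκ hC S hS hO

theorem roundGB_nonneg' (m : ℕ) {κ : ℝ} (h : 0 ≤ κ) : 0 ≤ roundGB m κ := by
  have := Real.pi_pos
  unfold roundGB
  positivity

theorem roundGB_pos' (m : ℕ) {κ : ℝ} (h : 0 < κ) : 0 < roundGB m κ := by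
  have := Real.pi_pos
  unfold roundGB
  positivity

/-- **Strict sign.** -/
theorem point_strict (e : OrthonormalBasis (Fin m × Bool) ℝ V) {R : V → V → V → V → ℝ}
    (hR : AlgCurv R) (hC : CxNeg R) (S : Submodule ℝ V)
    (hS : finrank ℝ S + 1 = 2 * m) (hO : OpNonposOn R S) : 0 < (-1) ^ m * gbc e R := by
  obtain ⟨κ, hκ, h⟩ := exists_shift e hR hC
  exact (roundGB_pos' m hκ).trans_le (point_strong e hR hκ.le h S hS hO)

end

variable {m : ℕ} {M : Type} [MeasurableSpace M]

/-- the integrated form -/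
theorem field_strong (μ : Measure M) (K : CurvField m M) (κ : M → ℝ)
    (h : ∀ p, 0 ≤ κ p ∧ CxNonpos (shiftT (K.R p) (κ p)) ∧
      ∃ S : Submodule ℝ (K.V p), finrank ℝ S + 1 = 2 * m ∧ OpNonposOn (K.R p) S) :
    0 ≤ (-1) ^ m * ∫ p, K.gb p ∂μ ∧
    (Integrable K.gb μ → Integrable (fun p => roundGB m (κ p)) μ →
      ∫ p, roundGB m (κ p) ∂μ ≤ (-1) ^ m * ∫ p, K.gb p ∂μ) ∧
    (Integrable K.gb μ → μ {p | CxNeg (K.R p)} ≠ 0 → 0 < (-1) ^ m * ∫ p, K.gb p ∂μ) := by
  have h0 : ∀ p, roundGB m (κ p) ≤ (-1) ^ m * K.gb p := by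
    intro p
    obtain ⟨h1, h2, S, hS, hO⟩ := h p
    exact point_strong (K.e p) (K.curv p) h1 h2 S hS hO
  have h1 : ∀ p, 0 ≤ (-1) ^ m * K.gb p := fun p => (roundGB_nonneg' m (h p).1).trans (h0 p)
  refine ⟨?_, fun hi hi' => ?_, fun hi hμ => ?_⟩
  · rw [← integral_const_mul]
    exact integral_nonneg h1
  · rw [← integral_const_mul]
    exact integral_mono hi' (hi.const_mul _) h0
  · rw [← integral_const_mul, integral_pos_iff_support_of_nonneg h1 (hi.const_mul _)]
    refine lt_of_lt_of_le (pos_iff_ne_zero.2 hμ) (measure_mono ?_)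
    intro p hp
    obtain ⟨-, -, S, hS, hO⟩ := h p
    exact (point_strict (K.e p) (K.curv p) hp S hS hO).ne'

end Pool.Agent.TH598.GV
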