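import Pool.Agent.W688.HD.BAS

/-!
# Complex sectional curvature and hyperplanes: from components to Euclidean spaces
-/

set_option autoImplicit false

namespace Pool.Agent.TH598.GV

open Finset MeasureTheory Module
open Pool.Agent.W666.GB

/-- the value of a real `4`-tensor on four vectors -/
noncomputable def rq {I : Type} [Fintype I] (R : I → I → I → I → ℝ) (a b c d : I → ℝ) : ℝ :=
  ∑ i, ∑ j, ∑ i', ∑ j', R i j i' j' * (a i * b j * c i' * d j')

section geo

variable {V : Type} [NormedAddCommGroup V] [InnerProductSpace ℝ V] {m : ℕ}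

/-- The difference of `R` and the tensor of constant curvature `-κ`. -/
noncomputable def shiftT (R : V → V → V → V → ℝ) (κ : ℝ) (x y z w : V) : ℝ :=
  R x y z w + κ * (inner ℝ x z * inner ℝ y w - inner ℝ x w * inner ℝ y z)

/-- The complex sectional curvatures of `R` are nonpositive: for `z = x + i y`, `w = u + i v` the
left side is `R^ℂ (z ∧ w, conj (z ∧ w))`. -/
def CxNonpos (R : V → V → V → V → ℝ) : Prop :=
  ∀ x y u v : V, R x u x u + R y v y v + R x v x v + R y u y u -
    2 * R x u y v + 2 * R x v y u ≤ 0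

/-- The curvature operator of `R` is nonpositive on the bivectors `∑ a i ∧ b i` of `S`. -/
def OpNonposOn (R : V → V → V → V → ℝ) (S : Submodule ℝ V) : Prop :=
  ∀ (n : ℕ) (a b : Fin n → V), (∀ i, a i ∈ S) → (∀ i, b i ∈ S) →
    ∑ i, ∑ j, R (a i) (b i) (a j) (b j) ≤ 0

theorem shift_curv {R : V → V → V → V → ℝ} (hR : AlgCurv R) (κ : ℝ) : AlgCurv (shiftT R κ) where
  add x x' y z w := by
    simp only [shiftT, hR.add, inner_add_left]; ring
  smul t x y z w := by
    simp only [shiftT, hR.smul, inner_smul_left, conj_trivial]; ring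
  anti x y z w := by
    simp only [shiftT, hR.anti x y z w]; ring
  pair x y z w := by
    simp only [shiftT, hR.pair x y z w, real_inner_comm z x, real_inner_comm w y,
      real_inner_comm z y, real_inner_comm w x]; ring
  bianchi x y z w := by
    simp only [shiftT]
    rw [real_inner_comm y x, real_inner_comm z x, real_inner_comm z y]
    linear_combination hR.bianchi x y z w

/-- an orthonormal basis with prescribed elements in `T` -/
theorem adapted {J : Type} [Fintype J] [DecidableEq J] (e : OrthonormalBasis J ℝ V)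
    (T : Submodule ℝ V) (A : Finset J) (hA : A.card ≤ finrank ℝ T) :
    ∃ e' : OrthonormalBasis J ℝ V, ∀ j ∈ A, e' j ∈ T := by
  classical
  have : FiniteDimensional ℝ V := Module.Finite.of_basis e.toBasis
  have hc : finrank ℝ V = Fintype.card J := finrank_eq_card_basis e.toBasis
  have u := stdOrthonormalBasis ℝ T
  obtain ⟨g⟩ : Nonempty (A ↪ Fin (finrank ℝ T)) := by
    refine Function.Embedding.nonempty_of_card_le ?_
    simpa using hA
  let v : J → V := fun j => if h : j ∈ A then ((u (g ⟨j, h⟩) : T) : V) else 0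
  have hv : Orthonormal ℝ ((A : Set J).domRestrict v) := by
    have h1 : Orthonormal ℝ (fun i : Fin (finrank ℝ T) => ((u i : T) : V)) :=
      u.orthonormal.comp_linearIsometry T.subtypeₗᵢ
    have h2 : Orthonormal ℝ (fun j : A => ((u (g j) : T) : V)) := h1.comp g g.injective
    have h3 : (A : Set J).domRestrict v = fun j => ((u (g ⟨j.1, j.2⟩) : T) : V) := by
      funext j
      simp only [Set.domRestrict_apply, v]
      rw [dif_pos (Finset.mem_coe.mp j.2)]
    rw [h3]
    exact h2
  obtain ⟨b, hb⟩ := hv.exists_orthonormalBasis_extension_of_card_eq hc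
  refine ⟨b, fun j hj => ?_⟩
  rw [hb j (Finset.mem_coe.mpr hj)]
  simp only [v, dif_pos hj]
  exact (u (g ⟨j, hj⟩)).2

/-- the vector with coordinates `x` -/
noncomputable def vc {I : Type} [Fintype I] (f : I → V) (x : I → ℝ) : V := ∑ i, x i • f i

theorem l1 {R : V → V → V → V → ℝ} (h : AlgCurv R) {I : Type} [Fintype I] (f : I → V)
    (x : I → ℝ) (y z w : V) : R (vc f x) y z w = ∑ i, x i * R (f i) y z w := by
  let L : V →ₗ[ℝ] ℝ :=
    { toFun := fun u => R u y z w
      map_add' := fun u v => h.add u v y z w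
      map_smul' := fun t u => h.smul t u y z w }
  have h1 : L (vc f x) = ∑ i, x i * L (f i) := by
    unfold vc
    rw [map_sum]
    exact Finset.sum_congr rfl fun a _ => by rw [map_smul, smul_eq_mul]
  exact h1

theorem l2 {R : V → V → V → V → ℝ} (h : AlgCurv R) {I : Type} [Fintype I] (f : I → V)
    (x : I → ℝ) (y z w : V) : R y (vc f x) z w = ∑ i, x i * R y (f i) z w := by
  rw [h.anti (vc f x) y z w, l1 h, ← Finset.sum_neg_distrib]
  exact Finset.sum_congr rfl fun i _ => by rw [h.anti (f i) y z w]; ring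

theorem l3 {R : V → V → V → V → ℝ} (h : AlgCurv R) {I : Type} [Fintype I] (f : I → V)
    (x : I → ℝ) (y z w : V) : R y z (vc f x) w = ∑ i, x i * R y z (f i) w := by
  rw [h.pair (vc f x) w y z, l1 h]
  exact Finset.sum_congr rfl fun i _ => by rw [h.pair (f i) w y z]

theorem l4 {R : V → V → V → V → ℝ} (h : AlgCurv R) {I : Type} [Fintype I] (f : I → V)
    (x : I → ℝ) (y z w : V) : R y z w (vc f x) = ∑ i, x i * R y z w (f i) := by
  rw [h.pair w (vc f x) y z, l2 h]
  exact Finset.sum_congr rfl fun i _ => by rw [h.pair w (f i) y z]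

theorem rq_eq {R : V → V → V → V → ℝ} (h : AlgCurv R) {I : Type} [Fintype I] (f : I → V)
    (a b c d : I → ℝ) :
    rq (fun i j k l => -R (f i) (f j) (f k) (f l)) a b c d =
      -R (vc f a) (vc f b) (vc f c) (vc f d) := by
  simp only [l1 h f a, l2 h f b, l3 h f c, l4 h f d, Finset.mul_sum]
  unfold rq
  simp only [← Finset.sum_neg_distrib]
  refine Finset.sum_congr rfl fun i _ => Finset.sum_congr rfl fun j _ =>
    Finset.sum_congr rfl fun k _ => Finset.sum_congr rfl fun l _ => by ring

/-- **Hopf sign, pointwise, quantitative.** -/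
theorem point
    (quant : ∀ {m : ℕ}
      (R : Fin m × Bool → Fin m × Bool → Fin m × Bool → Fin m × Bool → ℝ)
      (_ : ∀ i j k l, R j i k l = - R i j k l) (_ : ∀ i j k l, R k l i j = R i j k l)
      (i0 : Fin m × Bool)
      (_ : ∀ p : Fin m × Bool → Fin m × Bool → ℝ, (∀ j, p i0 j = 0) → (∀ j, p j i0 = 0) →
        0 ≤ ∑ i, ∑ j, ∑ i', ∑ j', R i j i' j' * (p i j * p i' j'))
      (_ : ∀ x y u v : Fin m × Bool → ℝ, 0 ≤ rq R x u x u + rq R y v y v + rq R x v x v +
        rq R y u y u - 2 * rq R x u y v + 2 * rq R x v y u) (κ : ℝ) (_ : 0 ≤ κ),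
      2 ^ m * ((2 * m).factorial : ℝ) * κ ^ m ≤
        ∑ σ : Equiv.Perm (Fin m × Bool), ∑ τ : Equiv.Perm (Fin m × Bool),
          ((Equiv.Perm.sign σ : ℤ) : ℝ) * ((Equiv.Perm.sign τ : ℤ) : ℝ) *
            ∏ b : Fin m, (R (σ (b, false)) (σ (b, true)) (τ (b, false)) (τ (b, true)) +
              κ * Pool.Agent.W666.GB.unitCurv (σ (b, false)) (σ (b, true)) (τ (b, false))
                (τ (b, true))))
    (e : OrthonormalBasis (Fin m × Bool) ℝ V) {R : V → V → V → V → ℝ} (hR : AlgCurv R)
    {κ : ℝ} (hκ : 0 ≤ κ) (hC : CxNonpos (shiftT R κ)) (S : Submodule ℝ V)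
    (hS : finrank ℝ S + 1 = 2 * m) (hO : OpNonposOn (shiftT R κ) S) :
    roundGB m κ ≤ (-1) ^ m * gbc e R := by
  classical
  have hm : 0 < m := by omega
  obtain ⟨n, rfl⟩ : ∃ n, m = n + 1 := ⟨m - 1, by omega⟩
  let i0 : Fin (n + 1) × Bool := (0, false)
  obtain ⟨f, hf⟩ := adapted e S (univ.erase i0) (by
    rw [Finset.card_erase_of_mem (Finset.mem_univ _), Finset.card_univ, Fintype.card_prod,
      Fintype.card_fin, Fintype.card_bool]
    omega)
  have hf' : ∀ j, j ≠ i0 → f j ∈ S := fun j hj => hf j (Finset.mem_erase.mpr ⟨hj, mem_univ _⟩)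
  rw [Pool.Agent.W688.HD.bas (n + 1) V e f R hR]
  have hT := shift_curv hR κ
  set T := shiftT R κ with hTdef
  have key := quant (m := n + 1) (fun i j k l => -T (f i) (f j) (f k) (f l))
    (fun i j k l => by rw [hT.anti]) (fun i j k l => by rw [hT.pair]) i0 ?_ ?_ κ hκ
  · have hcomp : ∀ i j k l, -T (f i) (f j) (f k) (f l) + κ * unitCurv i j k l =
        -R (f i) (f j) (f k) (f l) := by
      intro i j k l
      have hin : ∀ i j, inner ℝ (f i) (f j) = if i = j then (1 : ℝ) else 0 := fun i j => by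
        rw [f.inner_eq_ite]
      simp only [hTdef, shiftT, unitCurv, hin]
      ring
    have hsum : ∑ σ : Equiv.Perm (Fin (n + 1) × Bool), ∑ τ : Equiv.Perm (Fin (n + 1) × Bool),
          ((Equiv.Perm.sign σ : ℤ) : ℝ) * ((Equiv.Perm.sign τ : ℤ) : ℝ) *
            ∏ b : Fin (n + 1), (-T (f (σ (b, false))) (f (σ (b, true))) (f (τ (b, false)))
              (f (τ (b, true))) +
              κ * unitCurv (σ (b, false)) (σ (b, true)) (τ (b, false)) (τ (b, true))) =
        (-1) ^ (n + 1) * ∑ σ : Equiv.Perm (Fin (n + 1) × Bool),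
          ∑ τ : Equiv.Perm (Fin (n + 1) × Bool),
          ((Equiv.Perm.sign σ : ℤ) : ℝ) * ((Equiv.Perm.sign τ : ℤ) : ℝ) *
            ∏ b : Fin (n + 1), R (f (σ (b, false))) (f (σ (b, true))) (f (τ (b, false)))
              (f (τ (b, true))) := by
      simp only [hcomp, Finset.prod_neg, Finset.mul_sum, Finset.card_univ, Fintype.card_fin]
      refine Finset.sum_congr rfl fun σ _ => Finset.sum_congr rfl fun τ _ => by ring
    rw [hsum] at key
    have hπ := Real.pi_pos
    have hc : 0 < 1 / ((8 * Real.pi) ^ (n + 1) * ((n + 1).factorial : ℝ)) := by positivity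
    have h1 := mul_le_mul_of_nonneg_left key hc.le
    have h2 : 1 / ((8 * Real.pi) ^ (n + 1) * ((n + 1).factorial : ℝ)) *
        (2 ^ (n + 1) * ((2 * (n + 1)).factorial : ℝ) * κ ^ (n + 1)) = roundGB (n + 1) κ := by
      unfold roundGB
      have h8 : (8 * Real.pi) ^ (n + 1) = 2 ^ (n + 1) * (4 * Real.pi) ^ (n + 1) := by
        rw [← mul_pow]; ring
      rw [h8]
      field_simp
    rw [h2] at h1
    refine h1.trans (le_of_eq ?_)
    unfold gbc
    ring
  · -- the operator on the hyperplane
    intro p hp1 hp2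
    let a : (Fin (n + 1) × Bool) × (Fin (n + 1) × Bool) → V := fun q => p q.1 q.2 • f q.1
    let b : (Fin (n + 1) × Bool) × (Fin (n + 1) × Bool) → V := fun q =>
      if q.2 = i0 then 0 else f q.2
    have ha : ∀ q, a q ∈ S := by
      intro q
      by_cases hq : q.1 = i0
      · simp only [a, hq, hp1, zero_smul]
        exact S.zero_mem
      · exact S.smul_mem _ (hf' _ hq)
    have hb : ∀ q, b q ∈ S := by
      intro q
      by_cases hq : q.2 = i0
      · simp only [b, hq, if_true]
        exact S.zero_mem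
      · simp only [b, hq, if_false]
        exact hf' _ hq
    let c := (Fintype.equivFin ((Fin (n + 1) × Bool) × (Fin (n + 1) × Bool))).symm
    have h1 := hO _ (fun i => a (c i)) (fun i => b (c i)) (fun i => ha _) (fun i => hb _)
    rw [Equiv.sum_comp c (fun q => ∑ j, T (a q) (b q) (a (c j)) (b (c j)))] at h1
    have hc2 : ∀ q, ∑ j, T (a q) (b q) (a (c j)) (b (c j)) = ∑ q', T (a q) (b q) (a q') (b q') :=
      fun q => Equiv.sum_comp c (fun q' => T (a q) (b q) (a q') (b q'))
    simp only [hc2] at h1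
    have h3 : ∀ (t : ℝ) (x y z w : V), T x y (t • z) w = t * T x y z w := fun t x y z w => by
      rw [hT.pair (t • z) w x y, hT.smul, hT.pair z w x y]
    have h0 : ∀ x z w : V, T x 0 z w = 0 := fun x z w => by
      have := hT.smul 0 0 x z w
      rw [zero_smul, zero_mul] at this
      rw [hT.anti 0 x z w, this, neg_zero]
    have h0' : ∀ x y z : V, T x y z 0 = 0 := fun x y z => by
      rw [hT.pair z 0 x y, h0]
    have h2 : ∀ q q' : (Fin (n + 1) × Bool) × (Fin (n + 1) × Bool),
        T (a q) (b q) (a q') (b q') =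
          T (f q.1) (f q.2) (f q'.1) (f q'.2) * (p q.1 q.2 * p q'.1 q'.2) := by
      intro q q'
      simp only [a, b, hT.smul, h3]
      by_cases hq : q.2 = i0
      · simp only [hq, if_true, hp2, h0]; ring
      by_cases hq' : q'.2 = i0
      · simp only [hq', if_true, hp2, h0']; ring
      simp only [hq, hq', if_false]; ring
    simp only [h2] at h1
    have h4 : ∑ i, ∑ j, ∑ i', ∑ j', -T (f i) (f j) (f i') (f j') * (p i j * p i' j') =
        -∑ q : (Fin (n + 1) × Bool) × (Fin (n + 1) × Bool),
          ∑ q' : (Fin (n + 1) × Bool) × (Fin (n + 1) × Bool),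
          T (f q.1) (f q.2) (f q'.1) (f q'.2) * (p q.1 q.2 * p q'.1 q'.2) := by
      simp only [Fintype.sum_prod_type (α₁ := Fin (n + 1) × Bool) (α₂ := Fin (n + 1) × Bool),
        neg_mul, Finset.sum_neg_distrib]
    rw [h4]
    linarith
  · intro x y u v
    simp only [rq_eq hT]
    have := hC (vc f x) (vc f y) (vc f u) (vc f v)
    linarith

end geo

end Pool.Agent.TH598.GV
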