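import Pool.Agent.TH598.GV.Geo
import Pool.Agent.TH598.GV.Defs2
import Pool.Agent.TH828.J3423

/-!
# Strong form: from components to Euclidean spaces
-/

set_option autoImplicit false

namespace Pool.Agent.TH598.GV

open Finset MeasureTheory Module
open Pool.Agent.W666.GB
open scoped ComplexConjugate ComplexOrder

/-- the statement of the strong coordinate theorem -/
def Strong : Prop := ∀ {m : ℕ}
    (H : Fin m × Bool → Fin m × Bool → Fin m × Bool → Fin m × Bool → ℂ) (_ : HS H)
    (i0 : Fin m × Bool)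
    (_ : ∀ p : Fin m × Bool → Fin m × Bool → ℂ, (∀ j, p i0 j = 0) → (∀ j, p j i0 = 0) →
      0 ≤ (∑ i, ∑ j, ∑ i', ∑ j', H i j i' j' * (p i j * conj (p i' j'))).re)
    (δ : ℝ) (_ : 0 ≤ δ) (_ : ∀ z w : Fin m × Bool → ℂ, δ * (qf UU z w).re ≤ (qf H z w).re),
    2 ^ m * ((2 * m).factorial : ℝ) * δ ^ m ≤ (GG H).re

section geo

variable {V : Type} [NormedAddCommGroup V] [InnerProductSpace ℝ V] {m : ℕ}

/-- the operator condition in coordinates -/
theorem op_real {R : V → V → V → V → ℝ} (hR : AlgCurv R) {I : Type} [Fintype I] [DecidableEq I]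
    (f : I → V) (S : Submodule ℝ V) (i0 : I) (hf : ∀ j, j ≠ i0 → f j ∈ S)
    (hO : OpNonposOn R S) (p : I → I → ℝ) (hp1 : ∀ j, p i0 j = 0) (hp2 : ∀ j, p j i0 = 0) :
    0 ≤ ∑ i, ∑ j, ∑ i', ∑ j', -R (f i) (f j) (f i') (f j') * (p i j * p i' j') := by
  let a : I × I → V := fun q => p q.1 q.2 • f q.1
  let b : I × I → V := fun q => if q.2 = i0 then 0 else f q.2
  have ha : ∀ q, a q ∈ S := by
    intro q
    by_cases hq : q.1 = i0
    · simp only [a, hq, hp1, zero_smul]
      exact S.zero_mem
    · exact S.smul_mem _ (hf _ hq)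
  have hb : ∀ q, b q ∈ S := by
    intro q
    by_cases hq : q.2 = i0
    · simp only [b, hq, if_true]
      exact S.zero_mem
    · simp only [b, hq, if_false]
      exact hf _ hq
  let c := (Fintype.equivFin (I × I)).symm
  have h1 := hO _ (fun i => a (c i)) (fun i => b (c i)) (fun i => ha _) (fun i => hb _)
  rw [Equiv.sum_comp c (fun q => ∑ j, R (a q) (b q) (a (c j)) (b (c j)))] at h1
  have hc2 : ∀ q, ∑ j, R (a q) (b q) (a (c j)) (b (c j)) = ∑ q', R (a q) (b q) (a q') (b q') :=
    fun q => Equiv.sum_comp c (fun q' => R (a q) (b q) (a q') (b q'))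
  simp only [hc2] at h1
  have h3 : ∀ (t : ℝ) (x y z w : V), R x y (t • z) w = t * R x y z w := fun t x y z w => by
    rw [hR.pair (t • z) w x y, hR.smul, hR.pair z w x y]
  have h0 : ∀ x z w : V, R x 0 z w = 0 := fun x z w => by
    have := hR.smul 0 0 x z w
    rw [zero_smul, zero_mul] at this
    rw [hR.anti 0 x z w, this, neg_zero]
  have h0' : ∀ x y z : V, R x y z 0 = 0 := fun x y z => by
    rw [hR.pair z 0 x y, h0]
  have h2 : ∀ q q' : I × I,
      R (a q) (b q) (a q') (b q') =
        R (f q.1) (f q.2) (f q'.1) (f q'.2) * (p q.1 q.2 * p q'.1 q'.2) := by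
    intro q q'
    simp only [a, b, hR.smul, h3]
    by_cases hq : q.2 = i0
    · simp only [hq, if_true, hp2, h0]; ring
    by_cases hq' : q'.2 = i0
    · simp only [hq', if_true, hp2, h0']; ring
    simp only [hq, hq', if_false]; ring
  simp only [h2] at h1
  have h4 : ∑ i, ∑ j, ∑ i', ∑ j', -R (f i) (f j) (f i') (f j') * (p i j * p i' j') =
      -∑ q : I × I, ∑ q' : I × I,
        R (f q.1) (f q.2) (f q'.1) (f q'.2) * (p q.1 q.2 * p q'.1 q'.2) := by
    simp only [Fintype.sum_prod_type (α₁ := I) (α₂ := I), neg_mul, Finset.sum_neg_distrib]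
  rw [h4]
  linarith

/-- **Hopf sign, pointwise, strong form.** -/
theorem point2 (strong : Strong)
    (e : OrthonormalBasis (Fin m × Bool) ℝ V) {R : V → V → V → V → ℝ} (hR : AlgCurv R)
    {κ : ℝ} (hκ : 0 ≤ κ) (hC : CxNonpos (shiftT R κ)) (S : Submodule ℝ V)
    (hS : finrank ℝ S + 1 = 2 * m) (hO : OpNonposOn R S) :
    roundGB m κ ≤ (-1) ^ m * gbc e R := by
  classical
  have hm : 0 < m := by omega
  obtain ⟨n, rfl⟩ : ∃ n, m = n + 1 := ⟨m - 1, by omega⟩
  let i0 : Fin (n + 1) × Bool := (0, false)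
  obtain ⟨f, hf⟩ := adapted e S (univ.erase i0) (by
    rw [Finset.card_erase_of_mem (Finset.mem_univ _), Finset.card_univ, Fintype.card_prod,
      Fintype.card_fin, Fintype.card_bool]
    omega)
  have hf' : ∀ j, j ≠ i0 → f j ∈ S := fun j hj => hf j (Finset.mem_erase.mpr ⟨hj, mem_univ _⟩)
  rw [Pool.Agent.W688.HD.bas (n + 1) V e f R hR]
  let Rf : Fin (n + 1) × Bool → Fin (n + 1) × Bool → Fin (n + 1) × Bool → Fin (n + 1) × Bool → ℝ :=
    fun i j k l => -R (f i) (f j) (f k) (f l)
  have hpair : ∀ i j k l, Rf k l i j = Rf i j k l := fun i j k l => by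
    simp only [Rf]; rw [hR.pair]
  have halt : ∀ i j k l, Rf j i k l = - Rf i j k l := fun i j k l => by
    simp only [Rf]; rw [hR.anti]
  have hHS : HS (fun a b c d => ((Rf a b c d : ℝ) : ℂ)) := by
    constructor
    · intro i j k l
      rw [Complex.conj_ofReal, hpair]
    · intro i j k l
      rw [halt]; push_cast; ring
  have key := strong (fun a b c d => ((Rf a b c d : ℝ) : ℂ)) hHS i0 ?_ κ hκ ?_
  · rw [Pool.Agent.TH828.J3423.GG_re] at key
    have hsum : ∑ σ : Equiv.Perm (Fin (n + 1) × Bool), ∑ τ : Equiv.Perm (Fin (n + 1) × Bool),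
          Pool.Agent.W666.GB.sn σ * Pool.Agent.W666.GB.sn τ *
            ∏ b : Fin (n + 1), Rf (σ (b, false)) (σ (b, true)) (τ (b, false)) (τ (b, true)) =
        (-1) ^ (n + 1) * ∑ σ : Equiv.Perm (Fin (n + 1) × Bool),
          ∑ τ : Equiv.Perm (Fin (n + 1) × Bool),
          ((Equiv.Perm.sign σ : ℤ) : ℝ) * ((Equiv.Perm.sign τ : ℤ) : ℝ) *
            ∏ b : Fin (n + 1), R (f (σ (b, false))) (f (σ (b, true))) (f (τ (b, false)))
              (f (τ (b, true))) := by
      simp only [Rf, Finset.prod_neg, Finset.mul_sum, Finset.card_univ, Fintype.card_fin,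
        Pool.Agent.W666.GB.sn]
      refine Finset.sum_congr rfl fun σ _ => Finset.sum_congr rfl fun τ _ => by ring
    rw [hsum] at key
    have hπ := Real.pi_pos
    have hc : 0 < 1 / ((8 * Real.pi) ^ (n + 1) * ((n + 1).factorial : ℝ)) := by positivity
    have h1 := mul_le_mul_of_nonneg_left key hc.le
    have h2 : 1 / ((8 * Real.pi) ^ (n + 1) * ((n + 1).factorial : ℝ)) *
        (2 ^ (n + 1) * ((2 * (n + 1)).factorial : ℝ) * κ ^ (n + 1)) = roundGB (n + 1) κ := by
      unfold roundGB
      have h8 : (8 * Real.pi) ^ (n + 1) = 2 ^ (n + 1) * (4 * Real.pi) ^ (n + 1) := by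
        rw [← mul_pow]; ring
      rw [h8]
      field_simp
    rw [h2] at h1
    refine h1.trans (le_of_eq ?_)
    unfold gbc
    ring
  · intro p hp1 hp2
    rw [Pool.Agent.TH828.J3423.re_herm]
    refine add_nonneg ?_ ?_
    · exact op_real hR f S i0 hf' hO (fun a b => (p a b).re) (fun j => by simp [hp1])
        (fun j => by simp [hp2])
    · exact op_real hR f S i0 hf' hO (fun a b => (p a b).im) (fun j => by simp [hp1])
        (fun j => by simp [hp2])
  · intro z w
    have hT := shift_curv hR κ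
    set T := shiftT R κ with hTdef
    have hUU : (UU : Fin (n + 1) × Bool → Fin (n + 1) × Bool → Fin (n + 1) × Bool →
        Fin (n + 1) × Bool → ℂ) = fun a b c d => ((unitCurv a b c d : ℝ) : ℂ) := by
      funext a b c d
      have e2 : ∀ (P : Prop) [Decidable P], (((if P then 1 else 0 : ℝ)) : ℂ) =
          if P then 1 else 0 := by
        intro P _
        split_ifs <;> simp
      simp only [UU, unitCurv]
      rw [Complex.ofReal_sub, Complex.ofReal_mul, Complex.ofReal_mul, e2, e2, e2, e2]
    have hup : ∀ i j k l : Fin (n + 1) × Bool, unitCurv k l i j = unitCurv i j k l := by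
      intro i j k l
      have e1 : ∀ a b : Fin (n + 1) × Bool, (if a = b then (1 : ℝ) else 0) =
          if b = a then 1 else 0 := fun a b => by
        by_cases h : a = b
        · rw [if_pos h, if_pos h.symm]
        · rw [if_neg h, if_neg fun h' => h h'.symm]
      simp only [unitCurv]
      rw [e1 k i, e1 l j, e1 k j, e1 l i]
      ring
    rw [hUU, Pool.Agent.TH828.J3423.re_qf _ hup, Pool.Agent.TH828.J3423.re_qf _ hpair]
    have hcomp : ∀ i j k l, -T (f i) (f j) (f k) (f l) = Rf i j k l - κ * unitCurv i j k l := by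
      intro i j k l
      have hin : ∀ i j, inner ℝ (f i) (f j) = if i = j then (1 : ℝ) else 0 := fun i j => by
        rw [f.inner_eq_ite]
      simp only [hTdef, shiftT, unitCurv, hin, Rf]
      ring
    have hrq : ∀ a b c d : Fin (n + 1) × Bool → ℝ,
        Pool.Agent.TH828.J3423.rq Rf a b c d - κ * Pool.Agent.TH828.J3423.rq unitCurv a b c d =
          -T (vc f a) (vc f b) (vc f c) (vc f d) := by
      intro a b c d
      rw [← rq_eq hT]
      unfold Pool.Agent.TH828.J3423.rq rq
      simp only [hcomp, Finset.mul_sum, ← Finset.sum_sub_distrib]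
      refine Finset.sum_congr rfl fun i _ => Finset.sum_congr rfl fun j _ =>
        Finset.sum_congr rfl fun k _ => Finset.sum_congr rfl fun l _ => by ring
    have h1 := hrq (fun a => (z a).re) (fun a => (w a).re) (fun a => (z a).re) (fun a => (w a).re)
    have h2 := hrq (fun a => (z a).im) (fun a => (w a).im) (fun a => (z a).im) (fun a => (w a).im)
    have h3 := hrq (fun a => (z a).re) (fun a => (w a).im) (fun a => (z a).re) (fun a => (w a).im)
    have h4 := hrq (fun a => (z a).im) (fun a => (w a).re) (fun a => (z a).im) (fun a => (w a).re)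
    have h5 := hrq (fun a => (z a).re) (fun a => (w a).re) (fun a => (z a).im) (fun a => (w a).im)
    have h6 := hrq (fun a => (z a).re) (fun a => (w a).im) (fun a => (z a).im) (fun a => (w a).re)
    have h7 := hC (vc f fun a => (z a).re) (vc f fun a => (z a).im) (vc f fun a => (w a).re)
      (vc f fun a => (w a).im)
    linarith

end geo

end Pool.Agent.TH598.GV
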